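import Mathlib

set_option autoImplicit false

/-!
# The arithmetic of weights and degrees
-/

namespace Pool.Agent.W652.KC

open Finset ArithmeticFunction

theorem sum_phi_sub_mu (B m : ℕ) (hm : 0 < m) (hB : m ≤ B) :
    ∑ h ∈ Icc 1 B, (if h ∣ m then ((Nat.totient h : ℤ) - moebius h) else 0) =
      (m : ℤ) - (if m = 1 then 1 else 0) := by
  rw [← Finset.sum_filter]
  have h1 : (Icc 1 B).filter (fun h => h ∣ m) = m.divisors := by
    ext h
    rw [Finset.mem_filter, Finset.mem_Icc, Nat.mem_divisors]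
    constructor
    · rintro ⟨-, h2⟩
      exact ⟨h2, hm.ne'⟩
    · rintro ⟨h2, -⟩
      exact ⟨⟨Nat.pos_of_dvd_of_pos h2 hm, (Nat.le_of_dvd hm h2).trans hB⟩, h2⟩
  rw [h1, Finset.sum_sub_distrib]
  have h2 : ∑ h ∈ m.divisors, (Nat.totient h : ℤ) = m := by
    exact_mod_cast Nat.sum_totient m
  have h3 : ∑ h ∈ m.divisors, moebius h = if m = 1 then 1 else 0 := by
    rw [← ArithmeticFunction.coe_mul_zeta_apply, moebius_mul_coe_zeta, one_apply]
  rw [h2, h3]

theorem mu_le_phi (h : ℕ) (hh : 0 < h) : (moebius h : ℤ) ≤ Nat.totient h := by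
  have h1 : |moebius h| ≤ 1 := abs_moebius_le_one
  have h2 : 1 ≤ Nat.totient h := Nat.totient_pos.mpr hh
  have h3 := le_abs_self (moebius h)
  have h4 : (1 : ℤ) ≤ Nat.totient h := by exact_mod_cast h2
  linarith

/-- If for all `h ≥ 2` at least as many degrees as weights are divisible by `h`, then the number
of weights one minus the number of degrees one is at least the sum of the weights minus the sum
of the degrees. -/
theorem arith {n c : ℕ} (a : Fin n → ℕ) (d : Fin c → ℕ) (ha : ∀ i, 0 < a i) (hd : ∀ j, 0 < d j)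
    (H : ∀ h : ℕ, 2 ≤ h → (univ.filter fun i => h ∣ a i).card ≤ (univ.filter fun j => h ∣ d j).card) :
    (∑ i, (a i : ℤ)) - ∑ j, (d j : ℤ) ≤
      ((univ.filter fun i => a i = 1).card : ℤ) - ((univ.filter fun j => d j = 1).card : ℤ) := by
  classical
  set B : ℕ := ∑ i, a i + ∑ j, d j with hB
  have haB : ∀ i, a i ≤ B := fun i =>
    (Finset.single_le_sum (fun _ _ => Nat.zero_le _) (Finset.mem_univ i)).trans (Nat.le_add_right _ _)
  have hdB : ∀ j, d j ≤ B := fun j =>
    (Finset.single_le_sum (fun _ _ => Nat.zero_le _) (Finset.mem_univ j)).trans (Nat.le_add_left _ _)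
  have e1 : (∑ i, (a i : ℤ)) - ((univ.filter fun i => a i = 1).card : ℤ) =
      ∑ h ∈ Icc 1 B, ((Nat.totient h : ℤ) - moebius h) * ((univ.filter fun i => h ∣ a i).card : ℤ) := by
    have : ∀ i, (a i : ℤ) - (if a i = 1 then 1 else 0) =
        ∑ h ∈ Icc 1 B, (if h ∣ a i then ((Nat.totient h : ℤ) - moebius h) else 0) := fun i =>
      (sum_phi_sub_mu B (a i) (ha i) (haB i)).symm
    rw [Finset.card_filter, Nat.cast_sum, ← Finset.sum_sub_distrib]
    push_cast
    rw [Finset.sum_congr rfl fun i _ => this i, Finset.sum_comm]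
    refine Finset.sum_congr rfl fun h _ => ?_
    rw [Finset.card_filter, Nat.cast_sum, Finset.mul_sum]
    refine Finset.sum_congr rfl fun i _ => ?_
    split_ifs <;> simp
  have e2 : (∑ j, (d j : ℤ)) - ((univ.filter fun j => d j = 1).card : ℤ) =
      ∑ h ∈ Icc 1 B, ((Nat.totient h : ℤ) - moebius h) * ((univ.filter fun j => h ∣ d j).card : ℤ) := by
    have : ∀ j, (d j : ℤ) - (if d j = 1 then 1 else 0) =
        ∑ h ∈ Icc 1 B, (if h ∣ d j then ((Nat.totient h : ℤ) - moebius h) else 0) := fun j =>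
      (sum_phi_sub_mu B (d j) (hd j) (hdB j)).symm
    rw [Finset.card_filter, Nat.cast_sum, ← Finset.sum_sub_distrib]
    push_cast
    rw [Finset.sum_congr rfl fun i _ => this i, Finset.sum_comm]
    refine Finset.sum_congr rfl fun h _ => ?_
    rw [Finset.card_filter, Nat.cast_sum, Finset.mul_sum]
    refine Finset.sum_congr rfl fun i _ => ?_
    split_ifs <;> simp
  have e3 : ∑ h ∈ Icc 1 B, ((Nat.totient h : ℤ) - moebius h) * ((univ.filter fun i => h ∣ a i).card : ℤ) ≤
      ∑ h ∈ Icc 1 B, ((Nat.totient h : ℤ) - moebius h) * ((univ.filter fun j => h ∣ d j).card : ℤ) := by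
    refine Finset.sum_le_sum fun h hh => ?_
    rw [Finset.mem_Icc] at hh
    rcases Nat.lt_or_ge h 2 with h2 | h2
    · have : h = 1 := by omega
      subst this
      simp
    · refine mul_le_mul_of_nonneg_left ?_ ?_
      · exact_mod_cast H h h2
      · linarith [mu_le_phi h (by omega)]
  linarith

end Pool.Agent.W652.KC
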