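import Mathlib

set_option autoImplicit false

/-!
# Ramanujan sums and the arithmetic of weights and degrees
-/

namespace Pool.Agent.W652.KC

open Finset

/-- The Ramanujan sum `c_g(h)`. -/
noncomputable def R (h g : ℕ) : ℝ := ∑ ζ ∈ primitiveRoots g ℂ, (ζ ^ h).re

theorem R_le (h g : ℕ) : R h g ≤ (Nat.totient g : ℝ) := by
  rcases Nat.eq_zero_or_pos g with rfl | hg
  · simp [R]
  · rw [← Complex.card_primitiveRoots g]
    unfold R
    calc ∑ ζ ∈ primitiveRoots g ℂ, (ζ ^ h).re ≤ ∑ ζ ∈ primitiveRoots g ℂ, (1 : ℝ) := by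
          refine Finset.sum_le_sum fun ζ hζ => ?_
          have h1 : ζ ^ g = 1 := ((mem_primitiveRoots hg).mp hζ).pow_eq_one
          have h2 : ‖ζ‖ = 1 := Complex.norm_eq_one_of_pow_eq_one h1 hg.ne'
          calc (ζ ^ h).re ≤ ‖ζ ^ h‖ := Complex.re_le_norm _
            _ = 1 := by rw [norm_pow, h2, one_pow]
      _ = _ := by simp

theorem R_eq (h g : ℕ) (hg : 0 < g) (hgh : g ∣ h) : R h g = (Nat.totient g : ℝ) := by
  rw [← Complex.card_primitiveRoots g]
  unfold R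
  obtain ⟨e, rfl⟩ := hgh
  calc ∑ ζ ∈ primitiveRoots g ℂ, (ζ ^ (g * e)).re = ∑ ζ ∈ primitiveRoots g ℂ, (1 : ℝ) := by
        refine Finset.sum_congr rfl fun ζ hζ => ?_
        rw [pow_mul, ((mem_primitiveRoots hg).mp hζ).pow_eq_one, one_pow, Complex.one_re]
    _ = _ := by simp

theorem sum_R (h m : ℕ) (hm : 0 < m) :
    ∑ g ∈ m.divisors, R h g = if m ∣ h then (m : ℝ) else 0 := by
  classical
  haveI : NeZero m := ⟨hm.ne'⟩
  have hη : IsPrimitiveRoot (Complex.exp (2 * Real.pi * Complex.I / m)) m :=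
    Complex.isPrimitiveRoot_exp m hm.ne'
  generalize Complex.exp (2 * Real.pi * Complex.I / m) = η at hη
  have h1 : ∑ g ∈ m.divisors, R h g = (∑ ζ ∈ Polynomial.nthRootsFinset m (1 : ℂ), ζ ^ h).re := by
    rw [IsPrimitiveRoot.nthRoots_one_eq_biUnion_primitiveRoots, Finset.sum_biUnion, Complex.re_sum]
    · refine Finset.sum_congr rfl fun g _ => ?_
      rw [Complex.re_sum]
      rfl
    · intro x _ y _ hxy
      exact IsPrimitiveRoot.disjoint hxy
  rw [h1]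
  split_ifs with hmh
  · obtain ⟨e, rfl⟩ := hmh
    have : ∑ ζ ∈ Polynomial.nthRootsFinset m (1 : ℂ), ζ ^ (m * e) = (m : ℂ) := by
      calc _ = ∑ ζ ∈ Polynomial.nthRootsFinset m (1 : ℂ), (1 : ℂ) := by
            refine Finset.sum_congr rfl fun ζ hζ => ?_
            rw [pow_mul, (Polynomial.mem_nthRootsFinset hm 1).mp hζ, one_pow]
        _ = _ := by simp [hη.card_nthRootsFinset]
    rw [this, Complex.natCast_re]
  · have h2 : η ^ h ≠ 1 := fun h3 => hmh (hη.dvd_of_pow_eq_one h h3)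
    have h3 : η ^ h * ∑ ζ ∈ Polynomial.nthRootsFinset m (1 : ℂ), ζ ^ h =
        ∑ ζ ∈ Polynomial.nthRootsFinset m (1 : ℂ), ζ ^ h := by
      rw [Finset.mul_sum]
      refine Finset.sum_bij (fun ζ _ => η * ζ) ?_ ?_ ?_ ?_
      · intro ζ hζ
        rw [Polynomial.mem_nthRootsFinset hm] at hζ ⊢
        rw [mul_pow, hζ, hη.pow_eq_one, one_mul]
      · intro x _ y _ hxy
        exact mul_left_cancel₀ (hη.ne_zero hm.ne') hxy
      · intro ζ hζ
        refine ⟨η⁻¹ * ζ, ?_, ?_⟩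
        · rw [Polynomial.mem_nthRootsFinset hm] at hζ ⊢
          rw [mul_pow, hζ, inv_pow, hη.pow_eq_one, inv_one, one_mul]
        · rw [← mul_assoc, mul_inv_cancel₀ (hη.ne_zero hm.ne'), one_mul]
      · intro ζ _
        rw [mul_pow]
    have h4 : (η ^ h - 1) * ∑ ζ ∈ Polynomial.nthRootsFinset m (1 : ℂ), ζ ^ h = 0 := by
      rw [sub_mul, h3, one_mul, sub_self]
    rcases mul_eq_zero.mp h4 with h5 | h5
    · exact absurd (sub_eq_zero.mp h5) h2
    · rw [h5, Complex.zero_re]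

theorem sum_phi_R (h B m : ℕ) (hm : 0 < m) (hB : m ≤ B) :
    ∑ g ∈ Icc 1 B, (if g ∣ m then ((Nat.totient g : ℝ) - R h g) else 0) =
      (m : ℝ) - (if m ∣ h then (m : ℝ) else 0) := by
  rw [← Finset.sum_filter]
  have h1 : (Icc 1 B).filter (fun g => g ∣ m) = m.divisors := by
    ext g
    rw [Finset.mem_filter, Finset.mem_Icc, Nat.mem_divisors]
    constructor
    · rintro ⟨-, h2⟩
      exact ⟨h2, hm.ne'⟩
    · rintro ⟨h2, -⟩
      exact ⟨⟨Nat.pos_of_dvd_of_pos h2 hm, (Nat.le_of_dvd hm h2).trans hB⟩, h2⟩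
  rw [h1, Finset.sum_sub_distrib, sum_R h m hm]
  congr 1
  exact_mod_cast Nat.sum_totient m

theorem fam {n : ℕ} (h B : ℕ) (a : Fin n → ℕ) (ha : ∀ i, 0 < a i) (haB : ∀ i, a i ≤ B) :
    (∑ i, (a i : ℝ)) - ∑ i ∈ univ.filter (fun i => a i ∣ h), (a i : ℝ) =
      ∑ g ∈ Icc 1 B, ((Nat.totient g : ℝ) - R h g) * ((univ.filter fun i => g ∣ a i).card : ℝ) := by
  classical
  rw [Finset.sum_filter, ← Finset.sum_sub_distrib,
    Finset.sum_congr rfl fun i _ => (sum_phi_R h B (a i) (ha i) (haB i)).symm, Finset.sum_comm]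
  refine Finset.sum_congr rfl fun g _ => ?_
  rw [Finset.card_filter, Nat.cast_sum, Finset.mul_sum]
  refine Finset.sum_congr rfl fun i _ => ?_
  split_ifs <;> simp

/-- If for all `g` not dividing `h` at least as many degrees as weights are divisible by `g`, then
`∑_(a_i ∣ h) a_i - ∑_(d_j ∣ h) d_j ≥ ∑ a_i - ∑ d_j`. -/
theorem arith2 {n c : ℕ} (h : ℕ) (a : Fin n → ℕ) (d : Fin c → ℕ) (ha : ∀ i, 0 < a i)
    (hd : ∀ j, 0 < d j)
    (H : ∀ g : ℕ, ¬ g ∣ h →
      (univ.filter fun i => g ∣ a i).card ≤ (univ.filter fun j => g ∣ d j).card) :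
    (∑ i, (a i : ℤ)) - ∑ j, (d j : ℤ) ≤
      ∑ i ∈ univ.filter (fun i => a i ∣ h), (a i : ℤ) -
        ∑ j ∈ univ.filter (fun j => d j ∣ h), (d j : ℤ) := by
  classical
  set B : ℕ := ∑ i, a i + ∑ j, d j with hB
  have haB : ∀ i, a i ≤ B := fun i =>
    (Finset.single_le_sum (fun _ _ => Nat.zero_le _) (Finset.mem_univ i)).trans (Nat.le_add_right _ _)
  have hdB : ∀ j, d j ≤ B := fun j =>
    (Finset.single_le_sum (fun _ _ => Nat.zero_le _) (Finset.mem_univ j)).trans (Nat.le_add_left _ _)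
  have e1 := fam h B a ha haB
  have e2 := fam h B d hd hdB
  have e3 : ∑ g ∈ Icc 1 B, ((Nat.totient g : ℝ) - R h g) * ((univ.filter fun i => g ∣ a i).card : ℝ) ≤
      ∑ g ∈ Icc 1 B, ((Nat.totient g : ℝ) - R h g) * ((univ.filter fun j => g ∣ d j).card : ℝ) := by
    refine Finset.sum_le_sum fun g hg => ?_
    rw [Finset.mem_Icc] at hg
    by_cases hgh : g ∣ h
    · rw [R_eq h g (by omega) hgh]
      simp
    · refine mul_le_mul_of_nonneg_left ?_ (sub_nonneg.mpr (R_le h g))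
      exact_mod_cast H g hgh
  have e4 : (∑ i, (a i : ℝ)) - ∑ j, (d j : ℝ) ≤
      ∑ i ∈ univ.filter (fun i => a i ∣ h), (a i : ℝ) -
        ∑ j ∈ univ.filter (fun j => d j ∣ h), (d j : ℝ) := by linarith
  exact_mod_cast e4

end Pool.Agent.W652.KC
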