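import Pool.Agent.W652.KC.Main
import Pool.Agent.W652.KC.Ram

set_option autoImplicit false

/-!
# Weighted complete intersections with `O(N)` invertible
-/

namespace Pool.Agent.W652.KC

open MvPolynomial Finset Module

variable {k : Type} [Field k] {n c : ℕ} {a : Fin n → ℕ} {d : Fin c → ℕ}
  {f : Fin c → MvPolynomial (Fin n) k}

/-- For `g` not dividing `N` at least as many degrees as weights are divisible by `g`. -/
theorem countN [IsAlgClosed k] (N : ℕ) (hd : ∀ j, 0 < d j)
    (hf : ∀ j, (f j).IsWeightedHomogeneous a (d j))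
    (hX : ∀ z : Fin n → k, z ≠ 0 → (∀ j, eval z (f j) = 0) →
      ∀ h : ℕ, (∀ i, z i ≠ 0 → h ∣ a i) → h ∣ N) (h : ℕ) (h2 : ¬ h ∣ N) :
    (univ.filter fun i => h ∣ a i).card ≤ (univ.filter fun j => h ∣ d j).card := by
  classical
  by_contra hcon
  push Not at hcon
  rw [← Fintype.card_subtype, ← Fintype.card_subtype] at hcon
  let w : ({i // h ∣ a i} → k) → Fin n → k := fun z i => if hi : h ∣ a i then z ⟨i, hi⟩ else 0
  let g : {j // h ∣ d j} → MvPolynomial {i // h ∣ a i} k := fun j =>
    aeval (fun i => if hi : h ∣ a i then (X ⟨i, hi⟩ : MvPolynomial {i // h ∣ a i} k) else 0) (f j)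
  have hg : ∀ z j, eval z (g j) = eval (w z) (f j) := by
    intro z j
    have h1 : (MvPolynomial.aeval z : MvPolynomial {i // h ∣ a i} k →ₐ[k] k).comp
        (aeval (fun i => if hi : h ∣ a i then (X ⟨i, hi⟩ : MvPolynomial {i // h ∣ a i} k) else 0)) =
        MvPolynomial.aeval (w z) := by
      apply MvPolynomial.algHom_ext
      intro i
      simp only [AlgHom.comp_apply, aeval_X, w]
      by_cases hi : h ∣ a i
      · rw [dif_pos hi, dif_pos hi, aeval_X]
      · rw [dif_neg hi, dif_neg hi, map_zero]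
    have h3 := DFunLike.congr_fun h1 (f j)
    rw [AlgHom.comp_apply, aeval_eq_eval, aeval_eq_eval] at h3
    exact h3
  have hw0 : w 0 = 0 := by
    funext i
    simp only [w]
    split_ifs <;> rfl
  obtain ⟨z, hz, hzj⟩ := exists_zero g (fun j => by
    rw [hg, hw0]
    exact eval_zero_of_pos (hf j) (hd j)) hcon
  have hwz : w z ≠ 0 := by
    intro h0
    apply hz
    funext i
    have := congrFun h0 i.1
    simp only [w, dif_pos i.2] at this
    simpa using this
  apply h2
  exact hX (w z) hwz (fun j => by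
    by_cases hj : h ∣ d j
    · rw [← hg z ⟨j, hj⟩]
      exact hzj ⟨j, hj⟩
    · refine eval_zero_of (hf j) _ fun m hm => ?_
      by_contra hcon2
      push Not at hcon2
      apply hj
      rw [← hm]
      refine Finset.dvd_sum fun i _ => ?_
      by_cases hmi : m i = 0
      · rw [hmi, zero_mul]; exact dvd_zero h
      · have h5 := hcon2 i hmi
        by_cases hi : h ∣ a i
        · exact Dvd.dvd.mul_left hi _
        · exact absurd (by simp only [w, dif_neg hi]) h5) h (fun i hi => by
    by_contra hi2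
    exact hi (by simp only [w, dif_neg hi2]))

theorem D_sq (i : Fin n) (p : MvPolynomial (Fin n) k)
    (hp : p ∈ (Ideal.span (Set.range (X : Fin n → MvPolynomial (Fin n) k))) ^ 2) : D i p = 0 := by
  have h0 : ∀ q ∈ Ideal.span (Set.range (X : Fin n → MvPolynomial (Fin n) k)),
      eval (0 : Fin n → k) q = 0 := by
    intro q hq
    have : Ideal.span (Set.range (X : Fin n → MvPolynomial (Fin n) k)) ≤
        RingHom.ker (eval (0 : Fin n → k)) := by
      rw [Ideal.span_le]
      rintro _ ⟨j, rfl⟩
      simp [RingHom.mem_ker]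
    exact this hq
  rw [pow_two] at hp
  refine Submodule.mul_induction_on hp ?_ ?_
  · intro u hu v hv
    rw [D_mul i u v (h0 v hv), h0 u hu, zero_mul]
  · intro u v hu hv
    rw [map_add, hu, hv, add_zero]

/-- The ideal whose quotient is `S / 𝔪²`. -/
noncomputable def J (f : Fin c → MvPolynomial (Fin n) k) : Ideal (MvPolynomial (Fin n) k) :=
  Ideal.span (Set.range f) ⊔ (Ideal.span (Set.range (X : Fin n → MvPolynomial (Fin n) k))) ^ 2

/-- The degree `m` part of `𝔪 / 𝔪²` (for `m ≥ 1`). -/
noncomputable def Q (a : Fin n → ℕ) (f : Fin c → MvPolynomial (Fin n) k) (m : ℕ) :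
    Submodule k (MvPolynomial (Fin n) k ⧸ J f) :=
  Submodule.map (Ideal.Quotient.mkₐ k (J f)).toLinearMap (weightedHomogeneousSubmodule k a m)

theorem dim_Q (hd : ∀ j, 0 < d j)
    (hf : ∀ j, (f j).IsWeightedHomogeneous a (d j)) (e : ℕ) (he : 0 < e) :
    ((univ.filter fun i => a i = e).card : ℤ) - ((univ.filter fun j => d j = e).card : ℤ) ≤
      finrank k (Q a f e) := by
  classical
  let q := Ideal.Quotient.mkₐ k (J f)
  let Φ : ({i // a i = e} → k) →ₗ[k] (MvPolynomial (Fin n) k ⧸ J f) :=
    Fintype.linearCombination k (fun i : {i // a i = e} => q (X i.1))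
  have hΦ : ∀ x, Φ x = q (∑ i, C (x i) * X i.1) := by
    intro x
    rw [map_sum]
    simp only [Φ, Fintype.linearCombination_apply]
    refine Finset.sum_congr rfl fun i _ => ?_
    rw [← map_smul, smul_eq_C_mul]
  have hrange : LinearMap.range Φ = Q a f e := by
    apply le_antisymm
    · rintro _ ⟨x, rfl⟩
      rw [hΦ]
      refine ⟨∑ i, C (x i) * X i.1, ?_, rfl⟩
      refine Submodule.sum_mem _ fun i _ => ?_
      rw [← smul_eq_C_mul]
      refine Submodule.smul_mem _ _ ?_
      rw [mem_weightedHomogeneousSubmodule]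
      have := isWeightedHomogeneous_X k a i.1
      rwa [i.2] at this
    · rintro _ ⟨p, hp, rfl⟩
      change q p ∈ LinearMap.range Φ
      have hp' : p.IsWeightedHomogeneous a e := hp
      rw [← support_sum_monomial_coeff p, map_sum]
      refine Submodule.sum_mem _ fun m hm => ?_
      have h1 : Finsupp.weight a m = e := hp' (mem_support_iff.mp hm)
      have h2 : m ≠ 0 := by
        rintro rfl
        rw [map_zero] at h1
        omega
      obtain ⟨i, hi⟩ := Finsupp.ne_iff.mp h2
      rw [Finsupp.zero_apply] at hi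
      have hsplit : m = Finsupp.single i 1 + (m - Finsupp.single i 1) := by
        ext j
        rw [Finsupp.add_apply, Finsupp.tsub_apply]
        by_cases hj : j = i
        · subst hj; rw [Finsupp.single_eq_same]; omega
        · rw [Finsupp.single_eq_of_ne hj]; omega
      by_cases h3 : m - Finsupp.single i 1 = 0
      · rw [h3, add_zero] at hsplit
        have h6 : a i = e := by
          rw [← h1, hsplit, Finsupp.weight_apply, Finsupp.sum_single_index (by simp), one_smul]
        refine ⟨Pi.single ⟨i, h6⟩ (coeff m p), ?_⟩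
        rw [hΦ]
        congr 1
        rw [Finset.sum_eq_single (⟨i, h6⟩ : {i // a i = e})]
        · rw [Pi.single_eq_same]
          conv_rhs => rw [hsplit]
          rw [C_mul_X_eq_monomial, ← hsplit]
        · intro j _ hj
          rw [Pi.single_eq_of_ne hj, map_zero, zero_mul]
        · simp
      · obtain ⟨j, hj⟩ := Finsupp.ne_iff.mp h3
        rw [Finsupp.zero_apply] at hj
        have h7 : monomial m (coeff m p) ∈ J f := by
          refine Ideal.mem_sup_right ?_
          have h8 : monomial m (coeff m p) =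
              X i * (X j * monomial (m - Finsupp.single i 1 - Finsupp.single j 1) (coeff m p)) := by
            have hsplit2 : m - Finsupp.single i 1 =
                Finsupp.single j 1 + (m - Finsupp.single i 1 - Finsupp.single j 1) := by
              generalize m - Finsupp.single i 1 = m' at hj ⊢
              ext l
              rw [Finsupp.add_apply, Finsupp.tsub_apply]
              by_cases hl : l = j
              · subst hl; rw [Finsupp.single_eq_same]; omega
              · rw [Finsupp.single_eq_of_ne hl]; omega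
            rw [X, X, monomial_mul, monomial_mul, one_mul, one_mul, ← hsplit2, ← hsplit]
          rw [h8, pow_two]
          exact Ideal.mul_mem_mul (Ideal.subset_span ⟨i, rfl⟩)
            (Ideal.mul_mem_right _ _ (Ideal.subset_span ⟨j, rfl⟩))
        have h9 : q (monomial m (coeff m p)) = 0 := Ideal.Quotient.eq_zero_iff_mem.mpr h7
        rw [h9]
        exact Submodule.zero_mem _
  let v : {j // d j = e} → ({i // a i = e} → k) := fun j i => D i.1 (f j.1)
  have hker : LinearMap.ker Φ ≤ Submodule.span k (Set.range v) := by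
    intro x hx
    rw [LinearMap.mem_ker, hΦ] at hx
    have h1 : (∑ i, C (x i) * X i.1 : MvPolynomial (Fin n) k) ∈ J f := by
      rw [← Ideal.Quotient.eq_zero_iff_mem]
      exact hx
    unfold J at h1
    rw [Submodule.mem_sup] at h1
    obtain ⟨y, hy, y', hy', hyy⟩ := h1
    rw [Ideal.mem_span_range_iff_exists_fun] at hy
    obtain ⟨g, hg⟩ := hy
    rw [Submodule.mem_span_range_iff_exists_fun]
    refine ⟨fun j => eval (0 : Fin n → k) (g j.1), ?_⟩
    funext i
    have h2 : D i.1 (∑ i, C (x i) * X i.1 : MvPolynomial (Fin n) k) = x i := by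
      rw [map_sum, Finset.sum_eq_single i]
      · rw [← smul_eq_C_mul, map_smul, D_X, if_pos rfl, smul_eq_mul, mul_one]
      · intro j _ hj
        rw [← smul_eq_C_mul, map_smul, D_X, if_neg (fun h => hj (Subtype.ext h.symm)), smul_zero]
      · simp
    rw [← hyy, map_add, D_sq i.1 y' hy', add_zero, ← hg, map_sum] at h2
    rw [← h2, Finset.sum_apply]
    have h3 : ∀ j, D i.1 (g j * f j) = if d j = e then eval (0 : Fin n → k) (g j) * D i.1 (f j) else 0 := by
      intro j
      rw [D_mul _ _ _ (eval_zero_of_pos (hf j) (hd j))]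
      split_ifs with hj
      · rfl
      · rw [D_zero (hf j) i.1 (by rw [i.2]; exact fun h => hj h.symm), mul_zero]
    rw [Finset.sum_congr rfl fun j _ => h3 j, ← Finset.sum_filter]
    rw [Finset.sum_subtype (p := fun j => d j = e) (univ.filter fun j => d j = e) (by simp)]
    rfl
  have h1 : finrank k (LinearMap.range Φ) + finrank k (LinearMap.ker Φ) =
      Fintype.card {i // a i = e} := by
    rw [LinearMap.finrank_range_add_finrank_ker, finrank_fintype_fun_eq_card]
  have h2 : finrank k (LinearMap.ker Φ) ≤ Fintype.card {j // d j = e} :=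
    (Submodule.finrank_mono hker).trans (finrank_range_le_card v)
  have h3 : finrank k (Q a f e) + finrank k (LinearMap.ker Φ) = (univ.filter fun i => a i = e).card := by
    rw [← hrange, h1, Fintype.card_subtype]
  rw [Fintype.card_subtype] at h2
  have h4 : ((univ.filter fun i => a i = e).card : ℤ) =
      (finrank k (Q a f e) : ℤ) + (finrank k (LinearMap.ker Φ) : ℤ) := by
    rw [← h3]; push_cast; rfl
  have h5 : (finrank k (LinearMap.ker Φ) : ℤ) ≤ ((univ.filter fun j => d j = e).card : ℤ) := by
    exact_mod_cast h2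
  rw [h4]
  linarith

theorem sum_divisors {r : ℕ} (N : ℕ) (hN : 0 < N) (b : Fin r → ℕ) :
    ∑ i ∈ univ.filter (fun i => b i ∣ N), (b i : ℤ) =
      ∑ m ∈ N.divisors, (m : ℤ) * ((univ.filter fun i => b i = m).card : ℤ) := by
  classical
  rw [Finset.sum_filter]
  have h1 : ∀ i, (if b i ∣ N then (b i : ℤ) else 0) =
      ∑ m ∈ N.divisors, if b i = m then (m : ℤ) else 0 := by
    intro i
    rw [Finset.sum_ite_eq]
    simp [hN.ne']
  rw [Finset.sum_congr rfl fun i _ => h1 i, Finset.sum_comm]
  refine Finset.sum_congr rfl fun m _ => ?_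
  rw [Finset.card_filter, Nat.cast_sum, Finset.mul_sum]
  refine Finset.sum_congr rfl fun i _ => ?_
  split_ifs <;> simp

theorem generators [IsAlgClosed k] (N : ℕ) (hN : 0 < N) (ha : ∀ i, 0 < a i) (hd : ∀ j, 0 < d j)
    (hf : ∀ j, (f j).IsWeightedHomogeneous a (d j))
    (hX : ∀ z : Fin n → k, z ≠ 0 → (∀ j, eval z (f j) = 0) →
      ∀ h : ℕ, (∀ i, z i ≠ 0 → h ∣ a i) → h ∣ N) :
    (∑ i, (a i : ℤ)) - ∑ j, (d j : ℤ) ≤ ∑ m ∈ N.divisors, (m : ℤ) * (finrank k (Q a f m) : ℤ) := by
  refine (arith2 N a d ha hd (countN N hd hf hX)).trans ?_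
  rw [sum_divisors N hN a, sum_divisors N hN d, ← Finset.sum_sub_distrib]
  refine Finset.sum_le_sum fun m hm => ?_
  rw [← mul_sub]
  exact mul_le_mul_of_nonneg_left (dim_Q hd hf m (Nat.pos_of_mem_divisors hm)) (by positivity)

/-- The degree `m` part of `S`. -/
noncomputable def piece (a : Fin n → ℕ) (f : Fin c → MvPolynomial (Fin n) k) (m : ℕ) :
    Submodule k (MvPolynomial (Fin n) k ⧸ Ideal.span (Set.range f)) :=
  Submodule.map (Ideal.Quotient.mkₐ k (Ideal.span (Set.range f))).toLinearMap
    (weightedHomogeneousSubmodule k a m)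

theorem nonvanishing [IsAlgClosed k] (N : ℕ) (hN : 0 < N) (ha : ∀ i, 0 < a i) (hd : ∀ j, 0 < d j)
    (hf : ∀ j, (f j).IsWeightedHomogeneous a (d j))
    (hX : ∀ z : Fin n → k, z ≠ 0 → (∀ j, eval z (f j) = 0) →
      ∀ h : ℕ, (∀ i, z i ≠ 0 → h ∣ a i) → h ∣ N) (hlt : ∑ j, d j < ∑ i, a i)
    (hred : N = 1 ∨ IsReduced (MvPolynomial (Fin n) k ⧸ Ideal.span (Set.range f))) :
    ∃ s ∈ piece a f N, s ≠ 0 := by
  have h1 := generators N hN ha hd hf hX
  have h2 : (0 : ℤ) < ∑ m ∈ N.divisors, (m : ℤ) * (finrank k (Q a f m) : ℤ) := by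
    refine lt_of_lt_of_le ?_ h1
    have : (∑ j, (d j : ℤ)) < ∑ i, (a i : ℤ) := by exact_mod_cast hlt
    linarith
  obtain ⟨m, hm, hm0⟩ : ∃ m ∈ N.divisors, (0 : ℤ) < (m : ℤ) * (finrank k (Q a f m) : ℤ) := by
    by_contra hcon
    push Not at hcon
    exact absurd (Finset.sum_nonpos hcon) (not_le.mpr h2)
  have h3 : Q a f m ≠ ⊥ := by
    intro h0
    rw [h0, finrank_bot] at hm0
    simp at hm0
  obtain ⟨x, hx, hx0⟩ := (Submodule.ne_bot_iff _).mp h3
  obtain ⟨p, hp, rfl⟩ := hx
  have hp1 : p.IsWeightedHomogeneous a m := hp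
  have h4 : p ∉ Ideal.span (Set.range f) := by
    intro h5
    apply hx0
    change Ideal.Quotient.mk (J f) p = 0
    rw [Ideal.Quotient.eq_zero_iff_mem]
    exact Ideal.mem_sup_left h5
  obtain ⟨e, he⟩ := Nat.dvd_of_mem_divisors hm
  have hpe : (p ^ e).IsWeightedHomogeneous a N := by
    have := hp1.pow e
    rw [smul_eq_mul, mul_comm, ← he] at this
    exact this
  refine ⟨Ideal.Quotient.mk _ (p ^ e), ⟨p ^ e, hpe, rfl⟩, ?_⟩
  rcases hred with hN1 | hred
  · have he1 : e = 1 := by
      rw [hN1] at he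
      exact Nat.eq_one_of_mul_eq_one_left he.symm
    rw [he1, pow_one]
    intro h0
    exact h4 (Ideal.Quotient.eq_zero_iff_mem.mp h0)
  · intro h0
    rw [map_pow] at h0
    exact h4 (Ideal.Quotient.eq_zero_iff_mem.mp (hred.eq_zero _ ⟨e, h0⟩))

end Pool.Agent.W652.KC
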