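import Pool.Agent.W652.KC.Zero
import Pool.Agent.W652.KC.Arith

set_option autoImplicit false

/-!
# The degree one part of a weighted complete intersection with free action
-/

namespace Pool.Agent.W652.KC

open MvPolynomial Finset Module

variable {k : Type} [Field k] {n c : ℕ} {a : Fin n → ℕ} {d : Fin c → ℕ}
  {f : Fin c → MvPolynomial (Fin n) k}

theorem weight_eq (m : Fin n →₀ ℕ) : Finsupp.weight a m = ∑ i, m i * a i := by
  rw [Finsupp.weight_apply, Finsupp.sum_fintype]
  · simp
  · simp

theorem eval_zero_of {p : MvPolynomial (Fin n) k} {e : ℕ} (hp : p.IsWeightedHomogeneous a e)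
    (w : Fin n → k) (H : ∀ m : Fin n →₀ ℕ, ∑ i, m i * a i = e → ∃ i, m i ≠ 0 ∧ w i = 0) :
    eval w p = 0 := by
  rw [eval_eq]
  refine Finset.sum_eq_zero fun m hm => ?_
  have h1 : Finsupp.weight a m = e := hp (mem_support_iff.mp hm)
  rw [weight_eq] at h1
  obtain ⟨i, hi, hw⟩ := H m h1
  have : ∏ i ∈ m.support, w i ^ m i = 0 :=
    Finset.prod_eq_zero (Finsupp.mem_support_iff.mpr hi) (by rw [hw, zero_pow hi])
  rw [this, mul_zero]

theorem eval_zero_of_pos {p : MvPolynomial (Fin n) k} {e : ℕ} (hp : p.IsWeightedHomogeneous a e)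
    (he : 0 < e) : eval (0 : Fin n → k) p = 0 := by
  refine eval_zero_of hp 0 fun m hm => ?_
  by_contra hcon
  push Not at hcon
  have : ∑ i, m i * a i = 0 := Finset.sum_eq_zero fun i _ => by
    by_cases h : m i = 0
    · rw [h, zero_mul]
    · exact absurd rfl (hcon i h)
  omega

/-- For `h ≥ 2` at least as many degrees as weights are divisible by `h`. -/
theorem count [IsAlgClosed k] (hd : ∀ j, 0 < d j)
    (hf : ∀ j, (f j).IsWeightedHomogeneous a (d j))
    (hX : ∀ z : Fin n → k, z ≠ 0 → (∀ j, eval z (f j) = 0) →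
      ∀ h : ℕ, (∀ i, z i ≠ 0 → h ∣ a i) → h = 1) (h : ℕ) (h2 : 2 ≤ h) :
    (univ.filter fun i => h ∣ a i).card ≤ (univ.filter fun j => h ∣ d j).card := by
  classical
  by_contra hcon
  push Not at hcon
  rw [← Fintype.card_subtype, ← Fintype.card_subtype] at hcon
  let w : ({i // h ∣ a i} → k) → Fin n → k := fun z i => if hi : h ∣ a i then z ⟨i, hi⟩ else 0
  let g : {j // h ∣ d j} → MvPolynomial {i // h ∣ a i} k := fun j =>
    aeval (fun i => if hi : h ∣ a i then (X ⟨i, hi⟩ : MvPolynomial {i // h ∣ a i} k) else 0) (f j)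
  have hg : ∀ z j, eval z (g j) = eval (w z) (f j) := by
    intro z j
    have h1 : (MvPolynomial.aeval z : MvPolynomial {i // h ∣ a i} k →ₐ[k] k).comp
        (aeval (fun i => if hi : h ∣ a i then (X ⟨i, hi⟩ : MvPolynomial {i // h ∣ a i} k) else 0)) =
        MvPolynomial.aeval (w z) := by
      apply MvPolynomial.algHom_ext
      intro i
      simp only [AlgHom.comp_apply, aeval_X, w]
      by_cases hi : h ∣ a i
      · rw [dif_pos hi, dif_pos hi, aeval_X]
      · rw [dif_neg hi, dif_neg hi, map_zero]
    have h3 := DFunLike.congr_fun h1 (f j)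
    rw [AlgHom.comp_apply, aeval_eq_eval, aeval_eq_eval] at h3
    exact h3
  have hw0 : w 0 = 0 := by
    funext i
    simp only [w]
    split_ifs <;> rfl
  obtain ⟨z, hz, hzj⟩ := exists_zero g (fun j => by
    rw [hg, hw0]
    exact eval_zero_of_pos (hf j) (hd j)) hcon
  have hwz : w z ≠ 0 := by
    intro h0
    apply hz
    funext i
    have := congrFun h0 i.1
    simp only [w, dif_pos i.2] at this
    simpa using this
  have h1 := hX (w z) hwz (fun j => by
    by_cases hj : h ∣ d j
    · rw [← hg z ⟨j, hj⟩]
      exact hzj ⟨j, hj⟩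
    · refine eval_zero_of (hf j) _ fun m hm => ?_
      by_contra hcon2
      push Not at hcon2
      apply hj
      rw [← hm]
      refine Finset.dvd_sum fun i _ => ?_
      by_cases hmi : m i = 0
      · rw [hmi, zero_mul]; exact dvd_zero h
      · have h5 := hcon2 i hmi
        by_cases hi : h ∣ a i
        · exact Dvd.dvd.mul_left hi _
        · exact absurd (by simp only [w, dif_neg hi]) h5) h (fun i hi => by
    by_contra hi2
    exact hi (by simp only [w, dif_neg hi2]))
  omega

/-- the value at the origin of the derivative in direction `i` -/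
noncomputable def D (i : Fin n) : MvPolynomial (Fin n) k →ₗ[k] k :=
  (MvPolynomial.aeval (0 : Fin n → k) : MvPolynomial (Fin n) k →ₐ[k] k).toLinearMap.comp
    (pderiv i : Derivation k (MvPolynomial (Fin n) k) (MvPolynomial (Fin n) k)).toLinearMap

theorem D_apply (i : Fin n) (p : MvPolynomial (Fin n) k) :
    D i p = eval (0 : Fin n → k) (pderiv i p) := by
  rw [← aeval_eq_eval]; rfl

theorem D_X (i j : Fin n) : D (k := k) i (X j) = if i = j then 1 else 0 := by
  rw [D_apply, pderiv_X]
  by_cases h : i = j
  · subst h; simp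
  · rw [if_neg h, Pi.single_eq_of_ne' h, map_zero]

theorem D_mul (i : Fin n) (p q : MvPolynomial (Fin n) k) (hq : eval (0 : Fin n → k) q = 0) :
    D i (p * q) = eval (0 : Fin n → k) p * D i q := by
  rw [D_apply, D_apply, Derivation.leibniz, map_add, smul_eq_mul, smul_eq_mul, map_mul, map_mul, hq,
    zero_mul, add_zero]

theorem D_zero {p : MvPolynomial (Fin n) k} {e : ℕ} (hp : p.IsWeightedHomogeneous a e) (i : Fin n)
    (hi : a i ≠ e) : D i p = 0 := by
  classical
  rw [D_apply]
  conv_lhs => rw [← support_sum_monomial_coeff p]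
  rw [map_sum, map_sum]
  refine Finset.sum_eq_zero fun m hm => ?_
  rw [pderiv_monomial, ← aeval_eq_eval, aeval_monomial]
  have h1 : Finsupp.weight a m = e := hp (mem_support_iff.mp hm)
  by_cases hmi : m i = 0
  · rw [hmi]; simp
  · have h2 : m - Finsupp.single i 1 ≠ 0 := by
      intro h0
      apply hi
      rw [← h1, weight_eq]
      have h3 : ∀ j, m j = (Finsupp.single i 1 : Fin n →₀ ℕ) j := by
        intro j
        have h4 := DFunLike.congr_fun h0 j
        rw [Finsupp.tsub_apply, Finsupp.zero_apply] at h4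
        by_cases hj : j = i
        · subst hj
          rw [Finsupp.single_eq_same] at h4 ⊢
          omega
        · rw [Finsupp.single_eq_of_ne hj] at h4 ⊢
          omega
      rw [Finset.sum_eq_single i]
      · rw [h3 i, Finsupp.single_eq_same, one_mul]
      · intro j _ hj
        rw [h3 j, Finsupp.single_eq_of_ne hj, zero_mul]
      · simp
    obtain ⟨j, hj⟩ := Finsupp.ne_iff.mp h2
    rw [Finsupp.prod, Finset.prod_eq_zero (i := j) (Finsupp.mem_support_iff.mpr hj)
      (by rw [Pi.zero_apply, zero_pow hj]), mul_zero]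

/-- The degree one part of the quotient ring. -/
noncomputable def S1 (a : Fin n → ℕ) (f : Fin c → MvPolynomial (Fin n) k) :
    Submodule k (MvPolynomial (Fin n) k ⧸ Ideal.span (Set.range f)) :=
  Submodule.map (Ideal.Quotient.mkₐ k (Ideal.span (Set.range f))).toLinearMap
    (weightedHomogeneousSubmodule k a 1)

theorem dim_S1 (ha : ∀ i, 0 < a i) (hd : ∀ j, 0 < d j)
    (hf : ∀ j, (f j).IsWeightedHomogeneous a (d j)) :
    ((univ.filter fun i => a i = 1).card : ℤ) - ((univ.filter fun j => d j = 1).card : ℤ) ≤
      finrank k (S1 a f) := by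
  classical
  set I : Ideal (MvPolynomial (Fin n) k) := Ideal.span (Set.range f) with hI
  let q := Ideal.Quotient.mkₐ k I
  let Φ : ({i // a i = 1} → k) →ₗ[k] (MvPolynomial (Fin n) k ⧸ I) :=
    Fintype.linearCombination k (fun i : {i // a i = 1} => q (X i.1))
  have hΦ : ∀ x, Φ x = q (∑ i, C (x i) * X i.1) := by
    intro x
    rw [map_sum]
    simp only [Φ, Fintype.linearCombination_apply]
    refine Finset.sum_congr rfl fun i _ => ?_
    rw [← map_smul, smul_eq_C_mul]
  have hrange : LinearMap.range Φ = S1 a f := by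
    apply le_antisymm
    · rintro _ ⟨x, rfl⟩
      rw [hΦ]
      refine ⟨∑ i, C (x i) * X i.1, ?_, rfl⟩
      refine Submodule.sum_mem _ fun i _ => ?_
      rw [← smul_eq_C_mul]
      refine Submodule.smul_mem _ _ ?_
      rw [mem_weightedHomogeneousSubmodule]
      have := isWeightedHomogeneous_X k a i.1
      rwa [i.2] at this
    · rintro _ ⟨p, hp, rfl⟩
      change q p ∈ LinearMap.range Φ
      have hp' : p.IsWeightedHomogeneous a 1 := hp
      rw [← support_sum_monomial_coeff p, map_sum]
      refine Submodule.sum_mem _ fun m hm => ?_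
      have h1 : Finsupp.weight a m = 1 := hp' (mem_support_iff.mp hm)
      rw [weight_eq] at h1
      have h2 : ∃ i, m i * a i ≠ 0 := by
        by_contra hcon
        push Not at hcon
        rw [Finset.sum_eq_zero fun i _ => hcon i] at h1
        omega
      obtain ⟨i, hi⟩ := h2
      have h3 : m i * a i ≤ 1 := by
        rw [← h1]
        exact Finset.single_le_sum (f := fun i => m i * a i) (fun _ _ => Nat.zero_le _)
          (Finset.mem_univ i)
      have h4 : m i * a i = 1 := by omega
      have h5 : m i = 1 := Nat.eq_one_of_mul_eq_one_right h4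
      have h6 : a i = 1 := Nat.eq_one_of_mul_eq_one_left h4
      have h7 : m = Finsupp.single i 1 := by
        ext j
        by_cases hj : j = i
        · subst hj
          rw [Finsupp.single_eq_same, h5]
        · rw [Finsupp.single_eq_of_ne hj]
          by_contra hmj
          have h8 : m i * a i + m j * a j ≤ ∑ i, m i * a i := by
            rw [← Finset.sum_pair (f := fun i => m i * a i) (Ne.symm hj)]
            exact Finset.sum_le_sum_of_subset (Finset.subset_univ _)
          have h9 : 0 < m j * a j := Nat.mul_pos (Nat.pos_of_ne_zero hmj) (ha j)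
          omega
      refine ⟨Pi.single ⟨i, h6⟩ (coeff m p), ?_⟩
      rw [hΦ]
      congr 1
      rw [Finset.sum_eq_single (⟨i, h6⟩ : {i // a i = 1})]
      · rw [Pi.single_eq_same, h7, C_mul_X_eq_monomial]
      · intro j _ hj
        rw [Pi.single_eq_of_ne hj, map_zero, zero_mul]
      · simp
  let v : {j // d j = 1} → ({i // a i = 1} → k) := fun j i => D i.1 (f j.1)
  have hker : LinearMap.ker Φ ≤ Submodule.span k (Set.range v) := by
    intro x hx
    rw [LinearMap.mem_ker, hΦ] at hx
    have h1 : (∑ i, C (x i) * X i.1 : MvPolynomial (Fin n) k) ∈ I := by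
      rw [← Ideal.Quotient.eq_zero_iff_mem]
      exact hx
    rw [hI, Ideal.mem_span_range_iff_exists_fun] at h1
    obtain ⟨g, hg⟩ := h1
    rw [Submodule.mem_span_range_iff_exists_fun]
    refine ⟨fun j => eval (0 : Fin n → k) (g j.1), ?_⟩
    funext i
    have h2 : D i.1 (∑ i, C (x i) * X i.1 : MvPolynomial (Fin n) k) = x i := by
      rw [map_sum, Finset.sum_eq_single i]
      · rw [← smul_eq_C_mul, map_smul, D_X, if_pos rfl, smul_eq_mul, mul_one]
      · intro j _ hj
        rw [← smul_eq_C_mul, map_smul, D_X, if_neg (fun h => hj (Subtype.ext h.symm)), smul_zero]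
      · simp
    rw [← hg, map_sum] at h2
    rw [← h2, Finset.sum_apply]
    have h3 : ∀ j, D i.1 (g j * f j) = if d j = 1 then eval (0 : Fin n → k) (g j) * D i.1 (f j) else 0 := by
      intro j
      rw [D_mul _ _ _ (eval_zero_of_pos (hf j) (hd j))]
      split_ifs with hj
      · rfl
      · rw [D_zero (hf j) i.1 (by rw [i.2]; exact fun h => hj h.symm), mul_zero]
    rw [Finset.sum_congr rfl fun j _ => h3 j, ← Finset.sum_filter]
    rw [Finset.sum_subtype (p := fun j => d j = 1) (univ.filter fun j => d j = 1) (by simp)]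
    rfl
  have h1 : finrank k (LinearMap.range Φ) + finrank k (LinearMap.ker Φ) =
      Fintype.card {i // a i = 1} := by
    rw [LinearMap.finrank_range_add_finrank_ker, finrank_fintype_fun_eq_card]
  have h2 : finrank k (LinearMap.ker Φ) ≤ Fintype.card {j // d j = 1} :=
    (Submodule.finrank_mono hker).trans (finrank_range_le_card v)
  have h3 : finrank k (S1 a f) + finrank k (LinearMap.ker Φ) = (univ.filter fun i => a i = 1).card := by
    rw [← hrange, h1, Fintype.card_subtype]
  rw [Fintype.card_subtype] at h2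
  have h4 : ((univ.filter fun i => a i = 1).card : ℤ) =
      (finrank k (S1 a f) : ℤ) + (finrank k (LinearMap.ker Φ) : ℤ) := by
    rw [← h3]; push_cast; rfl
  have h5 : (finrank k (LinearMap.ker Φ) : ℤ) ≤ ((univ.filter fun j => d j = 1).card : ℤ) := by
    exact_mod_cast h2
  rw [h4]
  linarith

end Pool.Agent.W652.KC
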