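import Pool.Agent.W966.Vf.HT

set_option autoImplicit false

/-!
# Fewer equations than unknowns, and degrees against weights
-/

namespace Pool.Agent.W652.KC

open MvPolynomial Pool.Agent.W966.Vf

/-- Fewer equations without constant term than unknowns: there is a nonzero common zero. -/
theorem exists_zero {k : Type} [Field k] [IsAlgClosed k] {r J : Type} [Fintype r] [Fintype J]
    (g : J → MvPolynomial r k) (hg : ∀ j, eval (0 : r → k) (g j) = 0)
    (hc : Fintype.card J < Fintype.card r) : ∃ z : r → k, z ≠ 0 ∧ ∀ j, eval z (g j) = 0 := by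
  classical
  by_contra hcon
  push Not at hcon
  set G : Ideal (MvPolynomial r k) := Ideal.span (Set.range g) with hG
  have hz : zeroLocus k G = {0} := by
    ext z
    rw [mem_zeroLocus_iff, Set.mem_singleton_iff]
    constructor
    · intro h
      by_contra hz
      obtain ⟨j, hj⟩ := hcon z hz
      apply hj
      have h1 := h (g j) (Ideal.subset_span ⟨j, rfl⟩)
      rwa [aeval_eq_eval] at h1
    · rintro rfl p hp
      rw [aeval_eq_eval]
      have h1 : G ≤ RingHom.ker (eval (0 : r → k)) := by
        rw [hG, Ideal.span_le]
        rintro _ ⟨j, rfl⟩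
        exact hg j
      exact h1 hp
  have hrad : orig r k = G.radical := by
    rw [← vanishingIdeal_zeroLocus_eq_radical (K := k) G, hz]
    ext p
    rw [mem_vanishingIdeal_singleton_iff, aeval_eq_eval]
    rfl
  have hprime : (orig r k).IsPrime := RingHom.ker_isPrime _
  have hmin : orig r k ∈ G.minimalPrimes := by
    refine ⟨⟨hprime, ?_⟩, ?_⟩
    · rw [hrad]; exact Ideal.le_radical
    · rintro P ⟨hP, hGP⟩ hle
      rw [hrad]
      exact hP.radical_le_iff.mpr hGP
  have h1 := Ideal.height_le_spanRank_toENat_of_mem_minimalPrimes G (orig r k) hmin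
  have h2 : G.spanRank.toENat ≤ Fintype.card J := by
    rw [G.spanRank_toENat_eq_iInf_finset_card]
    have hs : Submodule.span (MvPolynomial r k) ((Finset.univ.image g : Finset _) :
        Set (MvPolynomial r k)) = G := by
      rw [hG]; simp [Ideal.span]
    refine (iInf_le _ ⟨Finset.univ.image g, hs⟩).trans ?_
    have : (Finset.univ.image g).card ≤ Fintype.card J := by
      rw [← Finset.card_univ]; exact Finset.card_image_le
    exact_mod_cast this
  have h3 : (Fintype.card r : ℕ∞) ≤ (orig r k).height := ht1 r k
  have h4 := h3.trans (h1.trans h2)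
  have h5 : Fintype.card r ≤ Fintype.card J := by exact_mod_cast h4
  omega

end Pool.Agent.W652.KC
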